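import Pool.Agent.Lib.MP_b5021c_nt.IfaceK2

/-!
# MP_b5021c_nt, module LIR

The limit polynomial is irreducible.
-/

namespace Pool.Agent.MP_b5021c_nt.H14

open Polynomial Filter Topology

/-- All ports occur if the span is full. -/
theorem all_ports {ι : Type} [Fintype ι] [DecidableEq ι] {D : Finset ι → ℤ[X]} (h : SpanK D) (i : ι) :
    ∃ T : Finset ι, i ∈ T ∧ D T ≠ 0 := by
  by_contra hc
  push Not at hc
  have h1 : Submodule.span ℚ {v : ι → ℚ | ∃ S : Finset ι, (D S).coeff 0 ≠ 0 ∧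
      v = fun i => if i ∈ S then 1 else 0} ≤ LinearMap.ker (LinearMap.proj (R := ℚ) (φ := fun _ : ι => ℚ) i) := by
    rw [Submodule.span_le]
    rintro v ⟨S, hS, rfl⟩
    have hi : i ∉ S := by
      intro hi
      rw [hc S hi] at hS
      simp at hS
    simp [hi]
  have h2 : (Pi.single i (1 : ℚ) : ι → ℚ) ∈ LinearMap.ker (LinearMap.proj (R := ℚ) (φ := fun _ : ι => ℚ) i) :=
    h1 (by rw [show Submodule.span ℚ _ = (⊤ : Submodule ℚ (ι → ℚ)) from h]; trivial)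
  simp at h2

/-- The value at `1/t` vanishes. -/
theorem pv_inv {Q : ℤ[X]} {t : ℝ} (h : OneZero Q t) : pv Q ((t : ℂ)⁻¹) = 0 := by
  obtain ⟨ht, -, g, hg, -⟩ := h
  have ht0 : (t : ℂ) ≠ 0 := by
    have : t ≠ 0 := by positivity
    exact_mod_cast this
  have h1 : pv Q ((t : ℂ)⁻¹) = (Q.map (Int.castRingHom ℂ)).eval ((t : ℂ)⁻¹) := by
    rw [pv, aeval_def, eval_map]
    rfl
  rw [h1, hg, eval_mul]
  simp [ht0]

/-- The reflected polynomial at `1/t`. -/
theorem pv_reflect {Q : ℤ[X]} {x : ℂ} (hx : x ≠ 0) {N : ℕ} (hN : Q.natDegree ≤ N) (h : pv Q x ≠ 0) :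
    pv (Q.reflect N) x⁻¹ ≠ 0 := by
  intro h0
  let _ := invertibleOfNonzero hx
  have h1 := Polynomial.eval₂_reflect_mul_pow (algebraMap ℤ ℂ) x N Q hN
  rw [invOf_eq_inv] at h1
  apply h
  rw [pv, aeval_def, ← h1]
  rw [pv, aeval_def] at h0
  rw [h0, zero_mul]

/-- Sequences with the same quotient relation. -/
theorem quot_eq {a : ℕ → ℤ} {Y Q Y' Q' R : ℤ[X]} (hQ' : Q' ≠ 0) (h1 : IsQuot a Y Q) (h2 : IsQuot a Y' Q')
    (h3 : Y' = R * Q') : Y = R * Q := by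
  unfold IsQuot at h1 h2
  have hne : (Q' : PowerSeries ℤ) ≠ 0 := by
    intro h
    exact hQ' (Polynomial.coe_eq_zero_iff.mp h)
  have h4 : PowerSeries.mk a = (R : PowerSeries ℤ) := by
    apply mul_right_cancel₀ hne
    rw [h2, h3, Polynomial.coe_mul]
  apply Polynomial.coe_injective (R := ℤ)
  rw [Polynomial.coe_mul, ← h1, h4]

theorem lir (lfa : LfaS) (lre : LreS) (buo : BuoS) (iso : IsoS) : LirS := by
  intro ι _ _ D D' t θ a b hG hpv hfree' hone' ht hne hq hq' hbp hlim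
  by_contra hirr
  obtain ⟨S, m, ε, hS, hε, hDS⟩ := lfa ι D' θ hfree' hone' hirr
  have hQ0 : D' ∅ ≠ 0 := by
    intro h
    have := hone'.2.1
    rw [h] at this
    simp at this
  obtain ⟨c', h', hbu⟩ := buo (D' ∅) (D' S) θ (b S) hone' (hq' S) (by
    intro z hz
    rw [hDS]
    have : pv (C ε * X ^ m * D' ∅) z = (ε : ℂ) * z ^ m * pv (D' ∅) z := by
      simp [pv]
    rw [this, norm_mul, norm_mul, norm_pow, hz, one_pow, mul_one]
    rcases hε with h | h <;> simp [h])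
  obtain ⟨B, hB⟩ : ∃ B : ℝ, ∀ n, t n ≤ B := by
    obtain ⟨B, hB⟩ := ht.bddAbove_range
    exact ⟨B, fun n => hB ⟨n, rfl⟩⟩
  choose c h hch using fun n => hbp n S
  have hev := iso (fun n => a n S) c t h (b S) c' θ B h' hch hB hbu (fun j => hlim S j)
  obtain ⟨n, hn⟩ := hev.exists
  have hn' : a n S = b S := hn
  have hDn : D n S = C ε * X ^ m * D n ∅ := by
    refine quot_eq hQ0 (hq n S) (Y' := D' S) (Q' := D' ∅) ?_ hDS
    rw [hn']
    exact hq' S
  have hGn := hG n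
  have hSu : S = Finset.univ := lre ι (D n) (t n) S m ε hGn.free hGn.one hGn.irr
    (fun i => all_ports hGn.spn i) hS hε hDn
  obtain ⟨N, ε', hε', hdeg, huni⟩ := hGn.uni
  have h1 := huni ∅
  rw [Finset.compl_empty, ← hSu, hDn] at h1
  have ht1 : 1 < t n := hGn.one.1
  have ht0 : (t n : ℂ) ≠ 0 := by
    have : t n ≠ 0 := by positivity
    exact_mod_cast this
  have h2 := congrArg (fun p => pv p ((t n : ℂ)⁻¹)) h1
  have h3 : pv (C ε * X ^ m * D n ∅) ((t n : ℂ)⁻¹) = 0 := by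
    have : pv (C ε * X ^ m * D n ∅) ((t n : ℂ)⁻¹) =
        (ε : ℂ) * ((t n : ℂ)⁻¹) ^ m * pv (D n ∅) ((t n : ℂ)⁻¹) := by
      simp [pv]
    rw [this, pv_inv hGn.one, mul_zero]
  have h4 : pv (C ε' * (D n ∅).reflect N) ((t n : ℂ)⁻¹) =
      (ε' : ℂ) * pv ((D n ∅).reflect N) ((t n : ℂ)⁻¹) := by
    simp [pv]
  simp only [h3, h4] at h2
  have h5 := pv_reflect ht0 (hdeg ∅) (hpv n)
  rcases mul_eq_zero.mp h2.symm with h6 | h6
  · rcases hε' with h | h <;> simp [h] at h6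
  · exact h5 h6

end Pool.Agent.MP_b5021c_nt.H14
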